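import Mathlib

set_option autoImplicit false

/-!
# Laws and finite-index overgroups: the general part

`F` is the free group on `x₀, x₁, …`, `lam0 : F → C₂` the parity of `x₀`, `N₀ = ker lam0`,
and `R` the normal subgroup of `F` generated by all `[a⁴, b⁴]` with `a, b ∈ N₀`.
-/

namespace Pool.Agent.LawsFI

abbrev F := FreeGroup ℕ
abbrev C2 := Multiplicative (ZMod 2)

/-- the commutator -/
def cm {T : Type*} [Group T] (a b : T) : T := a * b * a⁻¹ * b⁻¹

@[simp] theorem map_cm {T T' : Type*} [Group T] [Group T'] (f : T →* T') (a b : T) :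
    f (cm a b) = cm (f a) (f b) := by simp [cm]

def xi : C2 := Multiplicative.ofAdd (1 : ZMod 2)

theorem C2_cases (a : C2) : a = 1 ∨ a = xi := by
  revert a; decide

theorem xi_ne : xi ≠ 1 := by decide

theorem xi_mul_xi : xi * xi = 1 := by decide

/-- parity of the letter `x₀` -/
def lam0 : F →* C2 := FreeGroup.lift (fun i => if i = 0 then xi else 1)

theorem lam0_zero : lam0 (FreeGroup.of 0) = xi := by simp [lam0]

theorem lam0_succ (i : ℕ) : lam0 (FreeGroup.of (i+1)) = 1 := by simp [lam0]

def Rgen : Set F := {w | ∃ a b : F, lam0 a = 1 ∧ lam0 b = 1 ∧ w = cm (a^4) (b^4)}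

def R : Subgroup F := Subgroup.normalClosure Rgen

instance : R.Normal := Subgroup.normalClosure_normal

theorem R_le {T : Type} [Group T] (g : F →* T)
    (h : ∀ a b : F, lam0 a = 1 → lam0 b = 1 → cm ((g a)^4) ((g b)^4) = 1) : R ≤ g.ker := by
  apply Subgroup.normalClosure_le_normal
  rintro w ⟨a, b, ha, hb, rfl⟩
  have := h a b ha hb
  simp only [SetLike.mem_coe, MonoidHom.mem_ker, map_cm, map_pow]
  exact this

theorem C2_comm_aux (a b : C2) : cm (a^4) (b^4) = 1 := by
  revert a b; decide

theorem R_le_ker : R ≤ lam0.ker := by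
  apply R_le
  intro a b _ _
  exact C2_comm_aux _ _

abbrev G := F ⧸ R

def mk : F →* G := QuotientGroup.mk' R

def lamG : G →* C2 := QuotientGroup.lift R lam0 (fun _ hx => R_le_ker hx)

theorem lamG_mk (w : F) : lamG (mk w) = lam0 w := rfl

def H : Subgroup G := lamG.ker

instance : H.FiniteIndex := by
  unfold H
  infer_instance

theorem mk_eq_one {w : F} : mk w = 1 ↔ w ∈ R := by
  unfold mk
  simp

/-- the index two subgroup satisfies the law `[x⁴, y⁴]` -/
theorem lamG_law (a b : G) (ha : lamG a = 1) (hb : lamG b = 1) : cm (a^4) (b^4) = 1 := by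
  obtain ⟨a, rfl⟩ := QuotientGroup.mk'_surjective R a
  obtain ⟨b, rfl⟩ := QuotientGroup.mk'_surjective R b
  change lam0 a = 1 at ha
  change lam0 b = 1 at hb
  have : mk (cm (a^4) (b^4)) = 1 := by
    rw [mk_eq_one]
    exact Subgroup.subset_normalClosure ⟨a, b, ha, hb, rfl⟩
  simpa [mk] using this

/-- the defining law -/
def u0 : F := cm ((FreeGroup.of 0)^4) ((FreeGroup.of 1)^4)

def V (S : Finset F) : Subgroup F :=
  Subgroup.closure {v : F | ∃ s ∈ S, ∃ ψ : F →* F, ψ s = v}

instance V_normal (S : Finset F) : (V S).Normal := by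
  unfold V
  constructor
  intro n hn g
  induction hn using Subgroup.closure_induction with
  | mem x hx =>
    obtain ⟨s, hs, ψ, rfl⟩ := hx
    apply Subgroup.subset_closure
    refine ⟨s, hs, (MulAut.conj g).toMonoidHom.comp ψ, ?_⟩
    simp
  | one => simp
  | mul x y _ _ hx hy =>
    have : g * (x * y) * g⁻¹ = (g * x * g⁻¹) * (g * y * g⁻¹) := by group
    rw [this]
    exact Subgroup.mul_mem _ hx hy
  | inv x _ hx =>
    have : g * x⁻¹ * g⁻¹ = (g * x * g⁻¹)⁻¹ := by group
    rw [this]
    exact Subgroup.inv_mem _ hx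

/-- shift of the letters -/
def sh : F →* F := FreeGroup.lift (fun i => FreeGroup.of (i+1))

/-- retraction forgetting `x₀` -/
def rho : F →* F := FreeGroup.lift (fun i => if i = 0 then 1 else FreeGroup.of (i-1))

theorem lam0_sh (w : F) : lam0 (sh w) = 1 := by
  have : lam0.comp sh = 1 := by
    ext i
    simp [sh, lam0]
  exact DFunLike.congr_fun this w

theorem rho_sh (w : F) : rho (sh w) = w := by
  have : rho.comp sh = MonoidHom.id F := by
    ext i
    simp [sh, rho]
  exact DFunLike.congr_fun this w

/-- the laws of `H` are based on the single law `[x⁴, y⁴]` -/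
theorem H_laws :
    (∀ s ∈ ({u0} : Finset F), ∀ φ : F →* H, φ s = 1) ∧
      ∀ w : F, (∀ φ : F →* H, φ w = 1) → w ∈ V {u0} := by
  constructor
  · intro s hs φ
    simp only [Finset.mem_singleton] at hs
    subst hs
    have h := lamG_law (φ (FreeGroup.of 0)) (φ (FreeGroup.of 1))
      (φ (FreeGroup.of 0)).2 (φ (FreeGroup.of 1)).2
    apply H.subtype_injective
    rw [u0, map_cm, map_cm, map_one]
    simpa only [map_pow, Subgroup.coe_subtype] using h
  · intro w hw
    -- the homomorphism `x_i ↦ x_{i+1}` into `H`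
    let φ : F →* H := (mk.comp sh).codRestrict H (fun x => by
      change lamG (mk (sh x)) = 1
      rw [lamG_mk, lam0_sh])
    have h1 := hw φ
    have h2 : mk (sh w) = 1 := by
      have := congrArg Subtype.val h1
      simpa [φ] using this
    rw [mk_eq_one] at h2
    have h3 : R ≤ (V {u0}).comap rho := by
      apply Subgroup.normalClosure_le_normal
      rintro v ⟨a, b, ha, hb, rfl⟩
      apply Subgroup.subset_closure
      refine ⟨u0, by simp, FreeGroup.lift (fun i => if i = 0 then rho a else rho b), ?_⟩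
      simp [u0, map_cm]
    have h4 := h3 h2
    rw [Subgroup.mem_comap, rho_sh] at h4
    exact h4

/-- Any group having a subgroup of index at most two with the law `[x⁴, y⁴]`
satisfies all laws of `G`. -/
theorem law_transfer {T : Type} [Group T] (lam : T →* C2)
    (hT : ∀ a b : T, lam a = 1 → lam b = 1 → cm (a^4) (b^4) = 1)
    (w : F) (hw : ∀ φ : F →* G, φ w = 1) (g : F →* T) : g w = 1 := by
  classical
  obtain ⟨t, ht⟩ : ∃ t : T, (lam t = xi) ∨ (t = 1 ∧ ∀ s, lam s = 1) := by
    by_cases h : ∃ t, lam t = xi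
    · obtain ⟨t, ht⟩ := h
      exact ⟨t, Or.inl ht⟩
    · refine ⟨1, Or.inr ⟨rfl, fun s => ?_⟩⟩
      rcases C2_cases (lam s) with h1 | h1
      · exact h1
      · exact absurd ⟨s, h1⟩ h
  let h : F →* F := FreeGroup.lift (fun i =>
    if lam (g (FreeGroup.of i)) = 1 then FreeGroup.of (i+1) else FreeGroup.of (i+1) * FreeGroup.of 0)
  let g' : F →* T := FreeGroup.lift (fun i =>
    if i = 0 then t else
      if lam (g (FreeGroup.of (i-1))) = 1 then g (FreeGroup.of (i-1))
      else g (FreeGroup.of (i-1)) * t⁻¹)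
  have hcomp : g'.comp h = g := by
    ext i
    by_cases hi : lam (g (FreeGroup.of i)) = 1
    · simp [h, g', hi]
    · simp [h, g', hi]
  have hker : ∀ n : F, lam0 n = 1 → lam (g' n) = 1 := by
    rcases ht with ht | ⟨_, ht⟩
    · have : lam.comp g' = lam0 := by
        ext i
        rcases Nat.eq_zero_or_pos i with hi | hi
        · subst hi
          simp [g', lam0, ht]
        · obtain ⟨j, rfl⟩ := Nat.exists_eq_succ_of_ne_zero hi.ne'
          by_cases hj : lam (g (FreeGroup.of j)) = 1
          · simp [g', lam0, hj]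
          · have hj' : lam (g (FreeGroup.of j)) = xi := by
              rcases C2_cases (lam (g (FreeGroup.of j))) with h1 | h1
              · exact absurd h1 hj
              · exact h1
            simp [g', lam0, hj', xi_ne, ht]
      intro n hn
      rw [← hn, ← this]
      rfl
    · intro n _
      exact ht _
  have hR : R ≤ g'.ker := by
    apply R_le
    intro a b ha hb
    exact hT _ _ (hker a ha) (hker b hb)
  have h1 := hw (mk.comp h)
  have h2 : h w ∈ R := mk_eq_one.mp h1
  have h3 : g' (h w) = 1 := hR h2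
  rw [← hcomp]
  exact h3

end Pool.Agent.LawsFI
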