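import Mathlib

set_option autoImplicit false

/-!
# The test groups

`E` is an elementary abelian 2-group, `e i` (`i : I`) nonzero vectors of `E` and
`ε i : E → ZMod 2` linear with `ε i (e i) = 1`.
-/

namespace Pool.Agent.LawsFI

open Finset

structure Data where
  E : Type
  [acg : AddCommGroup E]
  [fin : Fintype E]
  [dec : DecidableEq E]
  two : ∀ x : E, x + x = 0
  I : Type
  [finI : Fintype I]
  e : I → E
  ε : I → (E →+ ZMod 2)
  eps : ∀ i, ε i (e i) = 1

attribute [instance] Data.acg Data.fin Data.dec Data.finI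

variable (D : Data)

theorem z2 (x : ZMod 2) : x + x = 0 := by revert x; decide

theorem z2sq (x : ZMod 2) : x * x = x := by revert x; decide

variable {D}

/-- shift -/
def shf (a : D.E) (f : D.E → ZMod 2) : D.E → ZMod 2 := fun x => f (x + a)

def sg (i : D.I) (f g : D.E → ZMod 2) : ZMod 2 :=
  ∑ x, (1 + D.ε i x) * (f (x + D.e i) * g x)

def bf (i : D.I) (f g : D.E → ZMod 2) : ZMod 2 := ∑ x, f (x + D.e i) * g x

def coc (i : D.I) (f : D.E → ZMod 2) (a : D.E) (g : D.E → ZMod 2) : ZMod 2 :=
  D.ε i a * sg i g g + sg i f (shf a g)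

theorem sg_add_left (i : D.I) (f f' g : D.E → ZMod 2) : sg i (f + f') g = sg i f g + sg i f' g := by
  unfold sg
  rw [← sum_add_distrib]
  apply sum_congr rfl
  intro x _
  simp only [Pi.add_apply]
  ring

theorem sg_add_right (i : D.I) (f g g' : D.E → ZMod 2) : sg i f (g + g') = sg i f g + sg i f g' := by
  unfold sg
  rw [← sum_add_distrib]
  apply sum_congr rfl
  intro x _
  simp only [Pi.add_apply]
  ring

theorem sum_shift (a : D.E) (h : D.E → ZMod 2) : ∑ x, h (x + a) = ∑ x, h x :=
  Fintype.sum_equiv (Equiv.addRight a) _ _ (fun _ => rfl)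

theorem add_self (a : D.E) : a + a = 0 := D.two a

theorem add_add_self (x a : D.E) : x + a + a = x := by rw [add_assoc, add_self, add_zero]

/-- `σ(f,g) + σ(g,f) = B(f,g)` -/
theorem sg_symm (i : D.I) (f g : D.E → ZMod 2) : sg i f g + sg i g f = bf i f g := by
  have h1 : sg i g f = ∑ x, (D.ε i x) * (f (x + D.e i) * g x) := by
    unfold sg
    rw [← sum_shift (D.e i) (fun x => (1 + D.ε i x) * (g (x + D.e i) * f x))]
    apply sum_congr rfl
    intro x _
    rw [add_add_self, map_add, D.eps]
    have : (1 : ZMod 2) + (D.ε i x + 1) = D.ε i x := by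
      have := z2 1
      linear_combination this
    rw [this]
    ring
  rw [h1]
  unfold sg bf
  rw [← sum_add_distrib]
  apply sum_congr rfl
  intro x _
  have := z2 (D.ε i x)
  linear_combination (f (x + D.e i) * g x) * this

theorem sg_shift (i : D.I) (a : D.E) (f g : D.E → ZMod 2) :
    sg i (shf a f) (shf a g) = sg i f g + D.ε i a * (sg i f g + sg i g f) := by
  rw [sg_symm]
  unfold sg bf shf
  rw [← sum_shift a (fun x => (1 + D.ε i x) * (f (x + D.e i) * g x)), mul_sum,
    ← sum_shift a (fun x => D.ε i a * (f (x + D.e i) * g x)), ← sum_add_distrib]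
  apply sum_congr rfl
  intro x _
  rw [map_add, show x + D.e i + a = x + a + D.e i by abel]
  have := z2 (D.ε i a)
  linear_combination (-(f (x + a + D.e i) * g (x + a))) * this

theorem q_shift (i : D.I) (a : D.E) (f : D.E → ZMod 2) :
    sg i (shf a f) (shf a f) = sg i f f := by
  rw [sg_shift, z2, mul_zero, add_zero]

theorem shf_shf (a b : D.E) (f : D.E → ZMod 2) : shf a (shf b f) = shf (a + b) f := by
  funext x
  simp [shf, add_assoc]

theorem shf_add (a : D.E) (f g : D.E → ZMod 2) : shf a (f + g) = shf a f + shf a g := rfl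

theorem shf_zero (f : D.E → ZMod 2) : shf (0 : D.E) f = f := by
  funext x
  simp [shf]

theorem coc_assoc (i : D.I) (f g h : D.E → ZMod 2) (a b : D.E) :
    coc i f a g + coc i (f + shf a g) (a + b) h
      = coc i g b h + coc i f a (g + shf b h) := by
  unfold coc
  simp only [sg_add_left, sg_add_right, shf_add, shf_shf, map_add, q_shift]
  have h1 : sg i (shf a g) (shf (a + b) h) =
      sg i g (shf b h) + D.ε i a * (sg i g (shf b h) + sg i (shf b h) g) := by
    rw [← shf_shf, sg_shift]
  rw [h1]
  ring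

theorem sg_zero_left (i : D.I) (g : D.E → ZMod 2) : sg i 0 g = 0 := by simp [sg]

theorem sg_zero_right (i : D.I) (g : D.E → ZMod 2) : sg i g 0 = 0 := by simp [sg]

/-- `q_i(f + f^a) = [a = e_i] ∑ f` -/
theorem q_key (i : D.I) (a : D.E) (f : D.E → ZMod 2) :
    sg i (f + shf a f) (f + shf a f) = if a = D.e i then ∑ x, f x else 0 := by
  have h1 : sg i (f + shf a f) (f + shf a f) = bf i f (shf a f) := by
    rw [← sg_symm]
    simp only [sg_add_left, sg_add_right, q_shift]
    have := z2 (sg i f f)
    linear_combination this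
  have h2 : bf i f (shf a f) = ∑ x, f x * f (x + (D.e i + a)) := by
    unfold bf shf
    rw [← sum_shift (D.e i) (fun x => f (x + D.e i) * f (x + a))]
    apply sum_congr rfl
    intro x _
    rw [add_add_self, add_assoc]
  rw [h1, h2]
  split_ifs with h
  · subst h
    apply sum_congr rfl
    intro x _
    rw [add_self, add_zero, z2sq]
  · apply Finset.sum_involution (fun x _ => x + (D.e i + a))
    · intro x _
      rw [add_add_self, mul_comm (f (x + (D.e i + a)))]
      exact z2 _
    · intro x _ _ h3
      apply h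
      have h4 : D.e i + a = 0 := by
        have := congrArg (fun y => -x + y) h3
        simpa using this
      have h5 : a = -D.e i := by
        rw [eq_neg_iff_add_eq_zero, add_comm]; exact h4
      rw [h5, neg_eq_iff_add_eq_zero]
      exact add_self _
    · intro x _; exact mem_univ _
    · intro x _; exact add_add_self _ _

variable (D) in
/-- the group `P` : triples `(f, s, a)` -/
@[ext] structure P where
  f : D.I → D.E → ZMod 2
  s : ZMod 2
  a : D.E

namespace P

def mulF (f : D.I → D.E → ZMod 2) (a : D.E) (g : D.I → D.E → ZMod 2) : ZMod 2 :=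
  ∑ i, coc i (f i) a (g i)

instance : Mul (P D) := ⟨fun u v =>
  ⟨fun i => u.f i + shf u.a (v.f i), u.s + v.s + ∑ i, coc i (u.f i) u.a (v.f i), u.a + v.a⟩⟩

instance : One (P D) := ⟨⟨fun _ => 0, 0, 0⟩⟩

instance : Inv (P D) := ⟨fun u =>
  ⟨fun i => shf u.a (u.f i), u.s + ∑ i, coc i (shf u.a (u.f i)) u.a (u.f i), u.a⟩⟩

theorem mul_f (u v : P D) (i : D.I) : (u * v).f i = u.f i + shf u.a (v.f i) := rfl
theorem mul_s (u v : P D) : (u * v).s = u.s + v.s + ∑ i, coc i (u.f i) u.a (v.f i) := rfl
theorem mul_a (u v : P D) : (u * v).a = u.a + v.a := rfl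
theorem one_f (i : D.I) : (1 : P D).f i = 0 := rfl
theorem one_s : (1 : P D).s = 0 := rfl
theorem one_a : (1 : P D).a = 0 := rfl
theorem inv_f (u : P D) (i : D.I) : (u⁻¹).f i = shf u.a (u.f i) := rfl
theorem inv_s (u : P D) : (u⁻¹).s = u.s + ∑ i, coc i (shf u.a (u.f i)) u.a (u.f i) := rfl
theorem inv_a (u : P D) : (u⁻¹).a = u.a := rfl

theorem add_self_fun (f : D.E → ZMod 2) : f + f = 0 := by
  funext x; exact z2 _

instance : Group (P D) := Group.ofLeftAxioms
  (by
    intro u v w
    ext1
    · funext i
      simp only [mul_f, mul_a, shf_add, shf_shf, add_assoc]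
    · simp only [mul_s, mul_a, mul_f]
      have h : (∑ i, coc i (u.f i) u.a (v.f i)) +
          (∑ i, coc i (u.f i + shf u.a (v.f i)) (u.a + v.a) (w.f i))
          = (∑ i, coc i (v.f i) v.a (w.f i)) +
            (∑ i, coc i (u.f i) u.a (v.f i + shf v.a (w.f i))) := by
        rw [← sum_add_distrib, ← sum_add_distrib]
        exact sum_congr rfl (fun i _ => coc_assoc i _ _ _ _ _)
      linear_combination h
    · simp only [mul_a, add_assoc])
  (by
    intro u
    ext1
    · funext i
      simp [mul_f, one_f, one_a, shf_zero]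
    · simp [mul_s, one_f, one_a, one_s, coc, sg_zero_left]
    · simp [mul_a, one_a])
  (by
    intro u
    ext1
    · funext i
      simp [mul_f, one_f, inv_f, inv_a, add_self_fun]
    · simp only [mul_s, inv_s, inv_f, inv_a, one_s]
      have h1 := z2 u.s
      have h2 := z2 (∑ i, coc i (shf u.a (u.f i)) u.a (u.f i))
      linear_combination h1 + h2
    · simp [mul_a, one_a, inv_a, add_self])

/-- fourth powers in `P` -/
theorem pow_four (u : P D) : u ^ 4 = ⟨fun _ => 0, ∑ i, (if u.a = D.e i then ∑ x, u.f i x else 0), 0⟩ := by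
  have h : u ^ 4 = (u * u) * (u * u) := by
    rw [← pow_two, ← pow_two, ← pow_mul]
  rw [h]
  have ha : (u * u).a = 0 := by rw [mul_a, add_self]
  have hf : ∀ i, (u * u).f i = u.f i + shf u.a (u.f i) := fun i => rfl
  ext1
  · funext i
    rw [mul_f, ha, shf_zero, add_self_fun]
  · rw [mul_s, z2, zero_add]
    apply sum_congr rfl
    intro i _
    rw [← q_key, hf, ha]
    simp [coc, shf_zero]
  · rw [mul_a, ha, add_zero]

end P

end Pool.Agent.LawsFI
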