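import Mathlib
import Pool.Agent.LawsFI.Core

set_option autoImplicit false

namespace Pool.Agent.LawsFI

/-- `c₀ = y⁸`, `c_{j+1} = [c_j, x_{j+1}⁴]` -/
def cw : ℕ → F
  | 0 => (FreeGroup.of 0)^8
  | (j+1) => cm (cw j) ((FreeGroup.of (j+1))^4)

/-- `x₁ x₂ ⋯ x_j` -/
def pw : ℕ → F
  | 0 => 1
  | (j+1) => pw j * FreeGroup.of (j+1)

/-- the law `[y⁸, x₁⁴, …, x_r⁴, (x₁⋯x_r)⁴]` -/
def W (r : ℕ) : F := cm (cw r) ((pw r)^4)

section law

variable {T : Type} [Group T] (lam : T →* C2)
    (hT : ∀ a b : T, lam a = 1 → lam b = 1 → cm (a^4) (b^4) = 1)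

def A4 : Subgroup T := Subgroup.closure {x | ∃ a : T, lam a = 1 ∧ x = a^4}

theorem cm_eq_one_iff (a b : T) : cm a b = 1 ↔ a * b = b * a := by
  unfold cm
  constructor
  · intro h
    have : a * b * a⁻¹ * b⁻¹ * (b * a) = 1 * (b * a) := by rw [h]
    simpa [mul_assoc] using this
  · intro h
    rw [h]; group

include hT in
theorem A4_comm (x y : T) (hx : x ∈ A4 lam) (hy : y ∈ A4 lam) : x * y = y * x := by
  have key : A4 lam ≤ Subgroup.centralizer {x | ∃ a : T, lam a = 1 ∧ x = a^4} := by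
    unfold A4
    rw [Subgroup.closure_le]
    rintro _ ⟨a, ha, rfl⟩
    rw [SetLike.mem_coe, Subgroup.mem_centralizer_iff]
    rintro _ ⟨b, hb, rfl⟩
    exact (cm_eq_one_iff _ _).mp (hT b a hb ha)
  have key2 : A4 lam ≤ Subgroup.centralizer (A4 lam : Set T) := by
    conv_lhs => unfold A4
    rw [Subgroup.closure_le]
    rintro _ ⟨a, ha, rfl⟩
    rw [SetLike.mem_coe, Subgroup.mem_centralizer_iff]
    intro z hz
    have := key hz
    rw [Subgroup.mem_centralizer_iff] at this
    exact (this (a^4) ⟨a, ha, rfl⟩).symm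
  have := key2 hy
  rw [Subgroup.mem_centralizer_iff] at this
  exact this x hx

theorem A4_conj (g x : T) (hx : x ∈ A4 lam) : g * x * g⁻¹ ∈ A4 lam := by
  unfold A4 at *
  induction hx using Subgroup.closure_induction with
  | mem x hx =>
    obtain ⟨a, ha, rfl⟩ := hx
    apply Subgroup.subset_closure
    refine ⟨g * a * g⁻¹, ?_, ?_⟩
    · simp [ha]
    · simp [conj_pow]
  | one => simp
  | mul x y _ _ hx hy =>
    have : g * (x * y) * g⁻¹ = (g * x * g⁻¹) * (g * y * g⁻¹) := by group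
    rw [this]
    exact Subgroup.mul_mem _ hx hy
  | inv x _ hx =>
    have : g * x⁻¹ * g⁻¹ = (g * x * g⁻¹)⁻¹ := by group
    rw [this]
    exact Subgroup.inv_mem _ hx

theorem A4_pow (a : T) (ha : lam a = 1) : a^4 ∈ A4 lam :=
  Subgroup.subset_closure ⟨a, ha, rfl⟩

theorem A4_cm (x g : T) (hx : x ∈ A4 lam) : cm x g ∈ A4 lam := by
  have : cm x g = x * (g * x⁻¹ * g⁻¹) := by unfold cm; group
  rw [this]
  exact Subgroup.mul_mem _ hx (A4_conj lam g _ (Subgroup.inv_mem _ hx))

theorem sq_lam (a : T) : lam (a^2) = 1 := by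
  rw [map_pow]
  rcases C2_cases (lam a) with h | h <;> rw [h] <;> decide

theorem cw_mem (f : F →* T) (j : ℕ) : f (cw j) ∈ A4 lam := by
  induction j with
  | zero =>
    have : f (cw 0) = ((f (FreeGroup.of 0))^2)^4 := by
      simp [cw, ← pow_mul]
    rw [this]
    exact A4_pow lam _ (sq_lam lam _)
  | succ j ih =>
    have : f (cw (j+1)) = cm (f (cw j)) ((f (FreeGroup.of (j+1)))^4) := by simp [cw]
    rw [this]
    exact A4_cm lam _ _ ih

include hT in
theorem cw_one (f : F →* T) (i : ℕ) (hi : lam (f (FreeGroup.of (i+1))) = 1) (j : ℕ) :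
    f (cw (i+1+j)) = 1 := by
  induction j with
  | zero =>
    have : f (cw (i+1)) = cm (f (cw i)) ((f (FreeGroup.of (i+1)))^4) := by simp [cw]
    rw [add_zero, this, cm_eq_one_iff]
    exact A4_comm lam hT _ _ (cw_mem lam f i) (A4_pow lam _ hi)
  | succ j ih =>
    have : f (cw (i+1+(j+1))) = cm (f (cw (i+1+j))) ((f (FreeGroup.of (i+1+j+1)))^4) := by
      rw [← add_assoc]; simp [cw]
    rw [this, ih]
    simp [cm]

theorem pw_lam (f : F →* T) (r : ℕ) (h : ∀ i < r, lam (f (FreeGroup.of (i+1))) = xi) :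
    lam (f (pw r)) = xi ^ r := by
  induction r with
  | zero => simp [pw]
  | succ r ih =>
    simp only [pw, map_mul]
    rw [ih (fun i hi => h i (by omega)), h r (by omega), pow_succ]

include hT in
/-- `W r` (`r` even) is a law in every group with a subgroup of index at most 2
satisfying `[x⁴,y⁴]` -/
theorem W_law (f : F →* T) (r : ℕ) (hr : Even r) : f (W r) = 1 := by
  have h0 : f (W r) = cm (f (cw r)) ((f (pw r))^4) := by simp [W]
  by_cases h : ∃ i < r, lam (f (FreeGroup.of (i+1))) = 1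
  · obtain ⟨i, hi, h1⟩ := h
    obtain ⟨j, rfl⟩ : ∃ j, r = i + 1 + j := ⟨r - (i+1), by omega⟩
    rw [h0, cw_one lam hT f i h1 j]
    simp [cm]
  · push Not at h
    have h2 : lam (f (pw r)) = xi ^ r := by
      apply pw_lam
      intro i hi
      rcases C2_cases (lam (f (FreeGroup.of (i+1)))) with h3 | h3
      · exact absurd h3 (h i hi)
      · exact h3
    have h3 : lam (f (pw r)) = 1 := by
      rw [h2]
      obtain ⟨m, rfl⟩ := hr
      rw [← two_mul, pow_mul, pow_two, xi_mul_xi, one_pow]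
    rw [h0, cm_eq_one_iff]
    exact A4_comm lam hT _ _ (cw_mem lam f r) (A4_pow lam _ h3)

end law

theorem W_law_G (r : ℕ) (hr : Even r) (φ : F →* G) : φ (W r) = 1 :=
  W_law lamG lamG_law φ r hr

/-- every word involves only finitely many letters -/
theorem finite_support (s : F) : ∃ k : ℕ, ∀ (T : Type) [Group T] (f f' : F →* T),
    (∀ i < k, f (FreeGroup.of i) = f' (FreeGroup.of i)) → f s = f' s := by
  induction s using FreeGroup.induction_on with
  | C1 => exact ⟨0, fun T _ f f' _ => by simp⟩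
  | of i => exact ⟨i+1, fun T _ f f' h => h i (by omega)⟩
  | inv_of i ih =>
    obtain ⟨k, hk⟩ := ih
    exact ⟨k, fun T _ f f' h => by rw [map_inv, map_inv, hk T f f' h]⟩
  | mul x y hx hy =>
    obtain ⟨k, hk⟩ := hx
    obtain ⟨l, hl⟩ := hy
    exact ⟨max k l, fun T _ f f' h => by
      rw [map_mul, map_mul, hk T f f' (fun i hi => h i (by omega)),
        hl T f f' (fun i hi => h i (by omega))]⟩

theorem finite_support' (S : Finset F) : ∃ k : ℕ, ∀ s ∈ S, ∀ (T : Type) [Group T] (f f' : F →* T),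
    (∀ i < k, f (FreeGroup.of i) = f' (FreeGroup.of i)) → f s = f' s := by
  classical
  choose k hk using finite_support
  refine ⟨S.sup k, fun s hs T _ f f' h => hk s T f f' (fun i hi => h i ?_)⟩
  exact lt_of_lt_of_le hi (Finset.le_sup hs)

end Pool.Agent.LawsFI
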