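import Mathlib
import Pool.Agent.LawsFI.Core
import Pool.Agent.LawsFI.Words
import Pool.Agent.LawsFI.Test

set_option autoImplicit false

namespace Pool.Agent.LawsFI

open Finset

/-- The wreath product `ℤ wr Q` (unrestricted), as pairs `(φ, p)`. -/
@[ext] structure Wr (Q : Type) where
  φ : Q → ℤ
  p : Q

namespace Wr

variable {Q : Type} [Group Q]

instance : Mul (Wr Q) := ⟨fun u v => ⟨fun x => u.φ x + v.φ (x * u.p), u.p * v.p⟩⟩
instance : One (Wr Q) := ⟨⟨fun _ => 0, 1⟩⟩
instance : Inv (Wr Q) := ⟨fun u => ⟨fun x => - u.φ (x * u.p⁻¹), u.p⁻¹⟩⟩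

theorem mul_φ (u v : Wr Q) (x : Q) : (u * v).φ x = u.φ x + v.φ (x * u.p) := rfl
theorem mul_p (u v : Wr Q) : (u * v).p = u.p * v.p := rfl
theorem one_φ (x : Q) : (1 : Wr Q).φ x = 0 := rfl
theorem one_p : (1 : Wr Q).p = 1 := rfl
theorem inv_φ (u : Wr Q) (x : Q) : (u⁻¹).φ x = - u.φ (x * u.p⁻¹) := rfl
theorem inv_p (u : Wr Q) : (u⁻¹).p = u.p⁻¹ := rfl

instance : Group (Wr Q) := Group.ofLeftAxioms
  (by
    intro u v w
    ext1
    · funext x
      simp only [mul_φ, mul_p, mul_assoc, add_assoc]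
    · simp only [mul_p, mul_assoc])
  (by
    intro u
    ext1
    · funext x
      simp [mul_φ, one_φ, one_p]
    · simp [mul_p, one_p])
  (by
    intro u
    ext1
    · funext x
      simp [mul_φ, one_φ, inv_φ, inv_p]
    · simp [mul_p, one_p, inv_p])

def proj : Wr Q →* Q where
  toFun := Wr.p
  map_one' := rfl
  map_mul' _ _ := rfl

def inr : Q →* Wr Q where
  toFun p := ⟨fun _ => 0, p⟩
  map_one' := rfl
  map_mul' u v := by
    ext1
    · funext x
      simp [mul_φ]
    · rfl

theorem comm_of_p {u v : Wr Q} (hu : u.p = 1) (hv : v.p = 1) : u * v = v * u := by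
  ext1
  · funext x
    simp [mul_φ, hu, hv, add_comm]
  · simp [mul_p, hu, hv]

theorem cm_formula (u v : Wr Q) (hu : u.p = 1) :
    cm u v = ⟨fun x => u.φ x - u.φ (x * v.p), 1⟩ := by
  ext1
  · funext x
    simp only [cm, mul_φ, mul_p, inv_φ, inv_p, hu]
    simp
    ring
  · simp [cm, mul_p, inv_p, hu]

theorem pow_of_p (u : Wr Q) (hu : u.p = 1) (n : ℕ) : u ^ n = ⟨fun x => n * u.φ x, 1⟩ := by
  induction n with
  | zero =>
    ext1
    · funext x; simp [one_φ]
    · simp [one_p]
  | succ n ih =>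
    rw [pow_succ, ih]
    ext1
    · funext x
      simp only [mul_φ]
      push_cast
      simp
      ring
    · simp [mul_p, hu]

end Wr

/-- The concrete data: `E = F₂^r`, vectors: the standard basis and the all-ones vector. -/
@[reducible] def DD (n : ℕ) : Data where
  E := Fin (n+1) → ZMod 2
  two x := by funext i; exact z2 _
  I := Option (Fin (n+1))
  e := fun i => match i with
    | some j => Pi.single j 1
    | none => fun _ => 1
  ε := fun i => match i with
    | some j => Pi.evalAddMonoidHom _ j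
    | none => Pi.evalAddMonoidHom _ 0
  eps := by
    intro i
    match i with
    | some j => simp
    | none => simp

variable {D : Data}

/-- the subgroup `deg f_i = ε_i(a)` -/
def CC (D : Data) : Subgroup (P D) where
  carrier := {u | ∀ i, ∑ x, u.f i x = D.ε i u.a}
  mul_mem' := by
    intro u v hu hv i
    simp only [P.mul_f, P.mul_a, map_add, Pi.add_apply, sum_add_distrib]
    rw [hu i, ← hv i]
    congr 1
    exact sum_shift u.a (v.f i)
  one_mem' := by
    intro i
    simp [P.one_f, P.one_a]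
  inv_mem' := by
    intro u hu i
    simp only [P.inv_f, P.inv_a]
    rw [← hu i]
    exact sum_shift u.a (u.f i)

theorem mem_CC (u : P D) : u ∈ CC D ↔ ∀ i, ∑ x, u.f i x = D.ε i u.a := Iff.rfl

/-- fourth powers on `CC` -/
theorem CC_pow (u : P D) (hu : u ∈ CC D) :
    u ^ 4 = ⟨fun _ => 0, ∑ i, (if u.a = D.e i then 1 else 0), 0⟩ := by
  rw [P.pow_four]
  congr 1
  apply sum_congr rfl
  intro i _
  split_ifs with h
  · rw [hu i, h, D.eps]
  · rfl

theorem CC_pow_one (u : P D) (hu : u ∈ CC D) (h : ∀ i, u.a ≠ D.e i) : u ^ 4 = 1 := by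
  rw [CC_pow u hu]
  ext1
  · rfl
  · simp [h, P.one_s]
  · rfl

def zz (D : Data) : P D := ⟨fun _ => 0, 1, 0⟩

theorem CC_pow_zz (u : P D) (hu : u ∈ CC D) (inj : Function.Injective D.e) (i : D.I)
    (h : u.a = D.e i) : u ^ 4 = zz D := by
  classical
  rw [CC_pow u hu]
  ext1
  · rfl
  · simp only [zz, h]
    have : ∀ j, (D.e i = D.e j) ↔ (i = j) := fun j => inj.eq_iff
    simp [this]
  · rfl

/-- a lift of a vector to `CC` -/
noncomputable def lft (a : D.E) : P D := ⟨fun i => fun x => if x = 0 then D.ε i a else 0, 0, a⟩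

theorem lft_mem (a : D.E) : lft a ∈ CC D := by
  intro i
  simp [lft]

theorem lft_a (a : D.E) : (lft a).a = a := rfl

end Pool.Agent.LawsFI
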