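import Mathlib
import Pool.Agent.LawsFI.Core
import Pool.Agent.LawsFI.Words
import Pool.Agent.LawsFI.Test
import Pool.Agent.LawsFI.Wreath

set_option autoImplicit false

namespace Pool.Agent.LawsFI

open Finset

section

variable {D : Data}

theorem zz_sq : zz D * zz D = 1 := by
  ext1
  · funext i
    simp only [P.mul_f, zz, P.one_f]
    rfl
  · simp only [P.mul_s, zz, P.one_s, coc, sg_zero_left, sg_zero_right]
    simp
    decide
  · simp [P.mul_a, zz, P.one_a]

theorem zz_ne : zz D ≠ 1 := by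
  intro h
  have := congrArg P.s h
  simp [zz, P.one_s] at this

open Classical in
noncomputable def ph (D : Data) : P D → ℤ := fun x => if x = 1 then 1 else if x = zz D then -1 else 0

theorem ph_zz (x : P D) : ph D (x * zz D) = - ph D x := by
  classical
  unfold ph
  have h1 : x * zz D = 1 ↔ x = zz D := by
    constructor
    · intro h
      calc x = x * (zz D * zz D) := by rw [zz_sq, mul_one]
        _ = x * zz D * zz D := by rw [mul_assoc]
        _ = zz D := by rw [h, one_mul]
    · rintro rfl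
      exact zz_sq
  have h2 : x * zz D = zz D ↔ x = 1 := by simp
  by_cases hx : x = 1
  · subst hx
    simp [zz_ne]
  · by_cases hz : x = zz D
    · simp [hz, zz_ne, zz_sq]
    · simp [h1, h2, hx, hz]

end

section

variable (k : ℕ)

abbrev DK : Data := DD (2*k+1)

noncomputable def Th : F →* Wr (P (DK k)) := FreeGroup.lift (fun i => match i with
  | 0 => ⟨ph _, 1⟩
  | (j+1) => if h : j < 2*k+1+1 then Wr.inr (lft ((DK k).e (some ⟨j, h⟩))) else 1)

theorem DK_inj : Function.Injective (DK k).e := by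
  intro i j h
  match i, j with
  | none, none => rfl
  | some a, some b =>
    have h1 : (Pi.single a 1 : Fin (2*k+1+1) → ZMod 2) = Pi.single b 1 := h
    have := congrFun h1 b
    by_cases hab : b = a
    · rw [hab]
    · simp [hab] at this
  | none, some b =>
    exfalso
    have h1 : (fun _ => 1 : Fin (2*k+1+1) → ZMod 2) = Pi.single b 1 := h
    by_cases hb : b = 0
    · have := congrFun h1 (Fin.last _)
      subst hb
      simp [Fin.ext_iff] at this
    · have := congrFun h1 0
      simp [Ne.symm hb] at this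
  | some b, none =>
    exfalso
    have h1 : Pi.single b 1 = (fun _ => 1 : Fin (2*k+1+1) → ZMod 2) := h
    by_cases hb : b = 0
    · have := congrFun h1 (Fin.last _)
      subst hb
      simp [Fin.ext_iff] at this
    · have := congrFun h1 0
      simp [Ne.symm hb] at this

theorem Th_zero : Th k (FreeGroup.of 0) = ⟨ph _, 1⟩ := by simp [Th]

theorem Th_succ (j : ℕ) (h : j < 2*k+1+1) : Th k (FreeGroup.of (j+1)) =
    Wr.inr (lft ((DK k).e (some ⟨j, h⟩))) :=
  (FreeGroup.lift_apply_of).trans (dif_pos h)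

theorem Th_succ' (j : ℕ) (h : ¬ j < 2*k+1+1) : Th k (FreeGroup.of (j+1)) = 1 :=
  (FreeGroup.lift_apply_of).trans (dif_neg h)

theorem Th_succ_pow (j : ℕ) (h : j < 2*k+1+1) : (Th k (FreeGroup.of (j+1)))^4 =
    Wr.inr (zz (DK k)) := by
  have h1 : (lft ((DK k).e (some ⟨j, h⟩)) : P (DK k)) ^ 4 = zz (DK k) :=
    CC_pow_zz _ (lft_mem _) (DK_inj k) (some ⟨j, h⟩) (lft_a _)
  rw [Th_succ k j h, ← map_pow, h1]

theorem Th_cw (j : ℕ) (hj : j ≤ 2*k+1+1) :
    Th k (cw j) = ⟨fun x => 8 * 2^j * ph _ x, 1⟩ := by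
  induction j with
  | zero =>
    rw [cw, map_pow, Th_zero, Wr.pow_of_p _ rfl]
    ext1
    · funext x; simp
    · rfl
  | succ j ih =>
    rw [cw, map_cm, ih (by omega), map_pow, Th_succ_pow k j (by omega), Wr.cm_formula _ _ rfl]
    ext1
    · funext x
      have : (Wr.inr (zz (DK k))).p = zz (DK k) := rfl
      simp only [this, ph_zz]
      ring
    · rfl

theorem Th_pw (j : ℕ) (hj : j ≤ 2*k+1+1) :
    ∃ u ∈ CC (DK k), Th k (pw j) = Wr.inr u ∧
      u.a = (fun i : Fin (2*k+1+1) => if i.val < j then (1 : ZMod 2) else 0) := by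
  induction j with
  | zero =>
    refine ⟨1, Subgroup.one_mem _, by simp [pw], ?_⟩
    simp only [P.one_a]
    funext i
    simp
    rfl
  | succ j ih =>
    obtain ⟨u, hu, h1, h2⟩ := ih (by omega)
    refine ⟨u * lft ((DK k).e (some ⟨j, by omega⟩)), Subgroup.mul_mem _ hu (lft_mem _), ?_, ?_⟩
    · rw [pw, map_mul, h1, Th_succ k j (by omega), map_mul]
    · rw [P.mul_a, h2, lft_a]
      funext i
      change (if i.val < j then (1 : ZMod 2) else 0) + (Pi.single ⟨j, _⟩ 1 : Fin (2*k+1+1) → ZMod 2) i = _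
      rw [Pi.single_apply]
      rcases lt_trichotomy i.val j with h | h | h
      · have : i ≠ ⟨j, by omega⟩ := by intro h'; rw [h'] at h; simp at h
        simp [h, this, Nat.lt_succ_of_lt h]
      · have : i = ⟨j, by omega⟩ := by ext; exact h
        simp [this]
      · have : i ≠ ⟨j, by omega⟩ := by intro h'; rw [h'] at h; simp at h
        have h3 : ¬ (i.val < j) := by omega
        have h4 : ¬ (i.val < j + 1) := by omega
        simp [h3, this, h4]

theorem Th_W : Th k (W (2*k+1+1)) ≠ 1 := by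
  intro h
  obtain ⟨u, hu, h1, h2⟩ := Th_pw k (2*k+1+1) le_rfl
  have h3 : u.a = (DK k).e none := by
    rw [h2]
    funext i
    exact if_pos i.2
  rw [W, map_cm, Th_cw k _ le_rfl, map_pow, h1, ← map_pow,
    CC_pow_zz u hu (DK_inj k) none h3, Wr.cm_formula _ _ rfl] at h
  have h4 := congrFun (congrArg Wr.φ h) 1
  have h5 : (Wr.inr (zz (DK k))).p = zz (DK k) := rfl
  simp only [h5, ph_zz, Wr.one_φ] at h4
  have h6 : ph (DK k) 1 = 1 := by simp [ph]
  rw [h6] at h4
  have h7 : (0 : ℤ) < 2 ^ (2*k+1+1) := by positivity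
  linarith

theorem Th_CC (w : F) : (Th k w).p ∈ CC (DK k) := by
  induction w using FreeGroup.induction_on with
  | C1 => rw [map_one]; exact Subgroup.one_mem _
  | of i =>
    match i with
    | 0 => rw [Th_zero]; exact Subgroup.one_mem _
    | (j+1) =>
      by_cases h : j < 2*k+1+1
      · rw [Th_succ k j h]
        exact lft_mem _
      · rw [Th_succ' k j h]
        exact Subgroup.one_mem _
  | inv_of i ih =>
    rw [map_inv]
    exact Subgroup.inv_mem _ ih
  | mul x y hx hy =>
    rw [map_mul]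
    exact Subgroup.mul_mem _ hx hy

/-- the subgroup of elements over a subspace -/
def TT (Ws : Submodule (ZMod 2) (Fin (2*k+1+1) → ZMod 2)) : Subgroup (Wr (P (DK k))) where
  carrier := {t | t.p ∈ CC (DK k) ∧ t.p.a ∈ Ws}
  mul_mem' := by
    rintro u v ⟨hu1, hu2⟩ ⟨hv1, hv2⟩
    refine ⟨Subgroup.mul_mem _ hu1 hv1, ?_⟩
    rw [Wr.mul_p, P.mul_a]
    exact Ws.add_mem hu2 hv2
  one_mem' := ⟨Subgroup.one_mem _, Ws.zero_mem⟩
  inv_mem' := by
    rintro u ⟨hu1, hu2⟩
    refine ⟨Subgroup.inv_mem _ hu1, ?_⟩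
    rw [Wr.inv_p, P.inv_a]
    exact hu2

/-- the functional -/
def fn (j0 : Fin (2*k+1+1)) : (Fin (2*k+1+1) → ZMod 2) →+ ZMod 2 where
  toFun a := (∑ j, a j) + a j0
  map_zero' := by simp
  map_add' a b := by
    simp only [Pi.add_apply, sum_add_distrib]
    ring

def lamT (Ws : Submodule (ZMod 2) (Fin (2*k+1+1) → ZMod 2)) (j0 : Fin (2*k+1+1)) :
    TT k Ws →* C2 where
  toFun t := Multiplicative.ofAdd (fn k j0 t.1.p.a)
  map_one' := by
    change Multiplicative.ofAdd (fn k j0 0) = 1
    rw [map_zero]; rfl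
  map_mul' u v := by
    exact congrArg Multiplicative.ofAdd (map_add (fn k j0) u.1.p.a v.1.p.a)

theorem exists_basis_not_mem (Ws : Submodule (ZMod 2) (Fin (2*k+1+1) → ZMod 2)) (h : Ws ≠ ⊤) :
    ∃ j0, (Pi.single j0 1 : Fin (2*k+1+1) → ZMod 2) ∉ Ws := by
  by_contra hc
  push Not at hc
  apply h
  rw [eq_top_iff]
  intro x _
  rw [pi_eq_sum_univ' x]
  apply Submodule.sum_mem
  intro i _
  apply Submodule.smul_mem
  exact hc i

theorem span_ne_top (v : Fin k → (Fin (2*k+1+1) → ZMod 2)) :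
    Submodule.span (ZMod 2) (Set.range v) ≠ ⊤ := by
  intro h
  have h1 := finrank_range_le_card (R := ZMod 2) v
  unfold Set.finrank at h1
  rw [h, finrank_top] at h1
  simp at h1
  omega

theorem hTT (Ws : Submodule (ZMod 2) (Fin (2*k+1+1) → ZMod 2)) (j0 : Fin (2*k+1+1))
    (h0 : (Pi.single j0 1 : Fin (2*k+1+1) → ZMod 2) ∉ Ws) (a b : TT k Ws)
    (ha : lamT k Ws j0 a = 1) (hb : lamT k Ws j0 b = 1) : cm (a^4) (b^4) = 1 := by
  have key : ∀ t : TT k Ws, lamT k Ws j0 t = 1 → (t.1^4).p = 1 := by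
    intro t ht
    change fn k j0 t.1.p.a = 0 at ht
    have h1 : (t.1^4).p = t.1.p^4 := map_pow Wr.proj t.1 4
    rw [h1]
    apply CC_pow_one _ t.2.1
    intro i hi
    have hW : t.1.p.a ∈ Ws := t.2.2
    match i with
    | some j =>
      have hi' : t.1.p.a = (Pi.single j 1 : Fin (2*k+1+1) → ZMod 2) := hi
      by_cases hj : j = j0
      · subst hj
        rw [hi'] at hW
        exact h0 hW
      · rw [hi'] at ht
        simp [fn, Pi.single_apply, Ne.symm hj] at ht
    | none =>
      have hi' : t.1.p.a = (fun _ => 1 : Fin (2*k+1+1) → ZMod 2) := hi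
      rw [hi'] at ht
      simp [fn] at ht
      have h3 : ((2 * (k : ZMod 2) + 1 + 1 + 1)) = 1 := by
        have := z2 (k : ZMod 2)
        have h4 := z2 (1 : ZMod 2)
        linear_combination this + h4
      rw [h3] at ht
      exact one_ne_zero ht
  rw [cm_eq_one_iff]
  apply Subtype.ext
  have := Wr.comm_of_p (key a ha) (key b hb)
  simpa using this

end

theorem main_false (S : Finset F) (hS : ∀ s ∈ S, ∀ φ : F →* G, φ s = 1)
    (hw : ∀ w : F, (∀ φ : F →* G, φ w = 1) → w ∈ V S) : False := by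
  obtain ⟨k, hk⟩ := finite_support' S
  apply Th_W k
  have hW : W (2*k+1+1) ∈ V S := by
    apply hw
    intro φ
    apply W_law_G
    exact ⟨k+1, by ring⟩
  have hle : V S ≤ (Th k).ker := by
    unfold V
    rw [Subgroup.closure_le]
    rintro _ ⟨s, hs, ψ, rfl⟩
    change Th k (ψ s) = 1
    let Ψ : F →* Wr (P (DK k)) := (Th k).comp ψ
    let v : Fin k → (Fin (2*k+1+1) → ZMod 2) := fun i => (Ψ (FreeGroup.of i.val)).p.a
    let Ws := Submodule.span (ZMod 2) (Set.range v)
    obtain ⟨j0, hj0⟩ := exists_basis_not_mem k Ws (span_ne_top k v)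
    let Ψ' : F →* TT k Ws := FreeGroup.lift (fun i =>
      if h : i < k then ⟨Ψ (FreeGroup.of i), Th_CC k _, Submodule.subset_span ⟨⟨i, h⟩, rfl⟩⟩ else 1)
    have h1 : Ψ' s = 1 := law_transfer (lamT k Ws j0) (hTT k Ws j0 hj0) s (hS s hs) Ψ'
    have h2 : Ψ s = ((TT k Ws).subtype.comp Ψ') s := by
      apply hk s hs
      intro i hi
      simp [Ψ', hi]
    change Ψ s = 1
    rw [h2, MonoidHom.comp_apply, h1, map_one]
  exact hle hW

end Pool.Agent.LawsFI
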